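import Pool.Agent.H266Z.DS.Full

set_option autoImplicit false

namespace Pool.Agent.Results.MP_a717c1_al.ADirectFull

/-- A magic unitary of size `V` over a unital C*-algebra `A`: its entries are self-adjoint
projections and each row and each column sums to `1`. -/
structure IsMagic {V : Type} [Fintype V] {A : Type} [CStarAlgebra A] (u : Matrix V V A) : Prop where
  star_eq : ∀ x y, star (u x y) = u x y
  mul_self : ∀ x y, u x y * u x y = u x y
  row_sum : ∀ x, ∑ y, u x y = 1
  col_sum : ∀ y, ∑ x, u x y = 1

open Classical in
/-- A finite graph has no quantum symmetry if the entries of every magic unitary, over every unital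
C*-algebra, that commutes with the adjacency matrix commute with each other. -/
def NoQuantumSymmetry {V : Type} [Fintype V] (G : SimpleGraph V) : Prop :=
  ∀ (A : Type) [CStarAlgebra A] (u : Matrix V V A), IsMagic u →
    u * G.adjMatrix A = G.adjMatrix A * u → ∀ x y z w, u x y * u z w = u z w * u x y

/-- The direct (tensor) product of two graphs. -/
def directProduct {V W : Type} (X : SimpleGraph V) (Y : SimpleGraph W) : SimpleGraph (V × W) where
  Adj a b := X.Adj a.1 b.1 ∧ Y.Adj a.2 b.2
  symm := ⟨fun _ _ h => ⟨h.1.symm, h.2.symm⟩⟩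
  loopless := ⟨fun a h => X.loopless.irrefl a.1 h.1⟩

theorem nqs_iff {V : Type} [Fintype V] (G : SimpleGraph V) :
    NoQuantumSymmetry G ↔ Pool.Agent.H741.QS.NoQuantumSymmetry G :=
  ⟨fun h A _ u hu => h A u ⟨hu.1, hu.2, hu.3, hu.4⟩,
    fun h A _ u hu => h A u ⟨hu.1, hu.2, hu.3, hu.4⟩⟩

/-- For every finite nonempty graph `X`, the direct square of `X` has no quantum symmetry if and
only if `X` has just one vertex, or `X` is connected and not bipartite, distinct vertices of `X`
have distinct neighbourhoods, and `X` has no quantum symmetry. -/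
theorem result (V : Type) [Fintype V] [Nonempty V] (X : SimpleGraph V) :
    NoQuantumSymmetry (directProduct X X) ↔
      (Fintype.card V = 1 ∨
        (X.Connected ∧ ¬ X.Colorable 2 ∧ (∀ x y, (∀ z, X.Adj x z ↔ X.Adj y z) → x = y) ∧
          NoQuantumSymmetry X)) := by
  rw [nqs_iff, nqs_iff]
  exact Pool.Agent.H266Z.DS.full V X

end Pool.Agent.Results.MP_a717c1_al.ADirectFull
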